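import Mathlib

/-!
# Brouwer's fixed point theorem for closed balls (analytic proof)
-/

namespace Pool.Agent.Shared.Brouwer

open Metric Set MeasureTheory Filter Topology Polynomial

variable {F : Type*} [NormedAddCommGroup F] [InnerProductSpace ℝ F] [FiniteDimensional ℝ F]

lemma det_interp (s : Fin (Module.finrank ℝ F + 1) → ℝ) (hs : Function.Injective s) :
    ∃ l : Fin (Module.finrank ℝ F + 1) → ℝ, ∑ j, l j = 1 ∧
      ∀ M : F →L[ℝ] F, (1 + M).det = ∑ j, l j * (1 + s j • M).det := by
  classical
  refine ⟨fun j => (Lagrange.basis Finset.univ s j).eval 1, ?_, ?_⟩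
  · rw [← Polynomial.eval_finsetSum, Lagrange.sum_basis hs.injOn Finset.univ_nonempty]
    simp
  · intro M
    set b := Module.finBasis ℝ F
    set A := LinearMap.toMatrix b b (M : F →ₗ[ℝ] F) with hA
    set p : ℝ[X] := Matrix.det ((X : ℝ[X]) • A.map C + (1 : Matrix _ _ ℝ).map C) with hp
    have hev : ∀ t : ℝ, p.eval t = (1 + t • M).det := by
      intro t
      have h1 : p.eval t = Matrix.det (t • A + 1) := by
        rw [hp, ← Polynomial.coe_evalRingHom, RingHom.map_det]
        congr 1
        ext i j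
        simp [Matrix.one_apply]
        split_ifs <;> simp [mul_comm]
      rw [h1, ContinuousLinearMap.det, ← LinearMap.det_toMatrix b]
      congr 1
      simp [hA, add_comm]
    have hdeg : p.degree < (Finset.univ : Finset (Fin (Module.finrank ℝ F + 1))).card := by
      have := Polynomial.natDegree_det_X_add_C_le A 1
      simp only [Fintype.card_fin] at this
      refine lt_of_le_of_lt Polynomial.degree_le_natDegree ?_
      simp only [Finset.card_univ, Fintype.card_fin]
      exact_mod_cast Nat.lt_succ_of_le this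
    have := Lagrange.eq_interpolate (s := Finset.univ) (v := s) hs.injOn hdeg
    have h1 := hev 1
    rw [one_smul] at h1
    rw [← h1, this, Lagrange.interpolate_apply, Polynomial.eval_finsetSum]
    refine Finset.sum_congr rfl fun j _ => ?_
    rw [Polynomial.eval_mul, Polynomial.eval_C, hev, mul_comm]

omit [FiniteDimensional ℝ F] in
lemma lipschitz_ext {h : F → F} {K : NNReal} (hK : LipschitzOnWith K h (closedBall 0 1))
    (h0 : ∀ x, 1 ≤ ‖x‖ → h x = 0) : LipschitzWith K h := by
  have key : ∀ x y, ‖x‖ ≤ 1 → 1 ≤ ‖y‖ → dist (h x) (h y) ≤ K * dist x y := by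
    intro x y hx hy
    have hc : ContinuousOn (fun t : ℝ => ‖x + t • (y - x)‖) (Icc 0 1) := by fun_prop
    obtain ⟨t, ht, ht1⟩ := intermediate_value_Icc zero_le_one hc
      (show (1 : ℝ) ∈ Icc _ _ by simpa using ⟨hx, hy⟩)
    have ht1 : ‖x + t • (y - x)‖ = 1 := ht1
    rw [h0 y hy, ← h0 _ ht1.ge]
    refine (hK.dist_le_mul x (by simpa using hx) _ (by simpa using ht1.le)).trans ?_
    gcongr
    rw [dist_eq_norm, dist_eq_norm, ← norm_neg, ← norm_neg (x - y)]
    have : -(x - (x + t • (y - x))) = t • (-(x - y)) := by simp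
    rw [this, norm_smul, Real.norm_of_nonneg ht.1]
    exact mul_le_of_le_one_left (norm_nonneg _) ht.2
  refine LipschitzWith.of_dist_le_mul fun x y => ?_
  rcases le_total ‖x‖ 1 with hx | hx <;> rcases le_total ‖y‖ 1 with hy | hy
  · exact hK.dist_le_mul x (by simpa using hx) y (by simpa using hy)
  · exact key x y hx hy
  · rw [dist_comm, dist_comm x]; exact key y x hy hx
  · rw [h0 x hx, h0 y hy, dist_self]; positivity

theorem no_retraction (r : F → F) (hr : ∀ x ∈ closedBall (0 : F) 1, ContDiffAt ℝ 1 r x)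
    (h1 : ∀ x ∈ closedBall (0 : F) 1, ‖r x‖ = 1) (h2 : ∀ x, ‖x‖ = 1 → r x = x) : False := by
  classical
  borelize F
  set μ : Measure F := Measure.addHaar
  set D : F → F →L[ℝ] F := fun x => fderiv ℝ r x - 1 with hD
  have hDc : ContinuousOn D (closedBall 0 1) := fun x hx =>
    (((hr x hx).continuousAt_fderiv (by norm_num)).sub continuousAt_const).continuousWithinAt
  obtain ⟨K0, hK0⟩ := (isCompact_closedBall (0 : F) 1).exists_bound_of_continuousOn hDc
  have hK0' : 0 ≤ K0 := (norm_nonneg _).trans (hK0 0 (by simp))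
  set h0 : F → F := fun x => r x - x with hh0
  have hd0 : ∀ x ∈ closedBall (0 : F) 1, HasFDerivAt h0 (D x) x := fun x hx =>
    ((hr x hx).differentiableAt (by norm_num)).hasFDerivAt.sub (hasFDerivAt_id x)
  set h : F → F := fun x => if ‖x‖ ≤ 1 then h0 x else 0 with hh
  have hL0 : LipschitzOnWith K0.toNNReal h0 (closedBall 0 1) := by
    refine (convex_closedBall (0 : F) 1).lipschitzOnWith_of_nnnorm_hasFDerivWithin_le
      (fun x hx => (hd0 x hx).hasFDerivWithinAt) (fun x hx => ?_)
    rw [← NNReal.coe_le_coe, Real.coe_toNNReal _ hK0']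
    exact hK0 x hx
  have hz : ∀ x, 1 ≤ ‖x‖ → h x = 0 := by
    intro x hx
    simp only [hh]
    split_ifs with hx'
    · simp [hh0, h2 x (le_antisymm hx' hx)]
    · rfl
  have hL : LipschitzWith K0.toNNReal h := by
    refine lipschitz_ext (fun x hx y hy => ?_) hz
    have hx' : ‖x‖ ≤ 1 := by simpa using hx
    have hy' : ‖y‖ ≤ 1 := by simpa using hy
    simp only [hh, hx', hy', if_true]
    exact hL0 hx hy
  have hd : ∀ x ∈ ball (0 : F) 1, HasFDerivAt h (D x) x := by
    intro x hx
    refine (hd0 x (ball_subset_closedBall hx)).congr_of_eventuallyEq ?_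
    filter_upwards [isOpen_ball.mem_nhds hx] with y hy
    have : ‖y‖ ≤ 1 := le_of_lt (by simpa using hy)
    simp [hh, this]
  -- positivity of the determinant near the identity
  obtain ⟨δ, hδ, hδp⟩ : ∃ δ > 0, ∀ N : F →L[ℝ] F, ‖N‖ < δ → 0 < (1 + N).det := by
    have hc : Continuous fun N : F →L[ℝ] F => (1 + N).det :=
      ContinuousLinearMap.continuous_det.comp (by fun_prop)
    have : ∀ᶠ N in 𝓝 (0 : F →L[ℝ] F), 0 < (1 + N).det := by
      apply hc.continuousAt.eventually (lt_mem_nhds _)
      simp [ContinuousLinearMap.det]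
    obtain ⟨δ, hδ, h⟩ := Metric.eventually_nhds_iff.mp this
    exact ⟨δ, hδ, fun N hN => h (by simpa using hN)⟩
  set s0 : ℝ := min δ (1 / 2) / (K0 + 1) with hs0
  have hs0p : 0 < s0 := by positivity
  have hs0K : s0 * K0 < min δ (1 / 2) := by
    have : s0 * (K0 + 1) = min δ (1 / 2) := by rw [hs0]; field_simp
    nlinarith
  have hvol : ∀ t, 0 ≤ t → t ≤ s0 →
      ∫ x in ball (0 : F) 1, (1 + t • D x).det ∂μ = μ.real (ball 0 1) := by
    intro t ht0 ht
    have htK : t * K0 < min δ (1 / 2) := lt_of_le_of_lt (by gcongr) hs0K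
    set g : F → F := fun x => x + t • h x with hg
    have happ : ApproximatesLinearOn g ((ContinuousLinearEquiv.refl ℝ F : F ≃L[ℝ] F) : F →L[ℝ] F)
        univ (1 / 2 : NNReal) := by
      intro x _ y _
      have : g x - g y - ((ContinuousLinearEquiv.refl ℝ F : F ≃L[ℝ] F) : F →L[ℝ] F) (x - y)
          = t • (h x - h y) := by simp [hg, smul_sub]; abel
      rw [this, norm_smul, Real.norm_of_nonneg ht0, ← dist_eq_norm]
      have h3 := hL.dist_le_mul x y
      rw [Real.coe_toNNReal _ hK0', dist_eq_norm x y] at h3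
      have h4 : t * K0 ≤ 1 / 2 := (htK.trans_le (min_le_right _ _)).le
      calc t * dist (h x) (h y) ≤ t * (K0 * ‖x - y‖) := by gcongr
        _ = (t * K0) * ‖x - y‖ := by ring
        _ ≤ (1 / 2) * ‖x - y‖ := by gcongr
        _ = _ := by simp
    have hc : Subsingleton F ∨ (1 / 2 : NNReal) <
        ‖(((ContinuousLinearEquiv.refl ℝ F).symm : F ≃L[ℝ] F) : F →L[ℝ] F)‖₊⁻¹ := by
      rcases subsingleton_or_nontrivial F with hF | hF
      · exact Or.inl hF
      · right
        have : ‖(((ContinuousLinearEquiv.refl ℝ F).symm : F ≃L[ℝ] F) : F →L[ℝ] F)‖₊ = 1 := by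
          simp
        rw [this]; norm_num
    have hinj : Function.Injective g := by
      rw [← injOn_univ]; exact happ.injOn hc
    have hsurj : Function.Surjective g := happ.surjective hc
    have hfix : ∀ x, 1 ≤ ‖x‖ → g x = x := fun x hx => by simp [hg, hz x hx]
    have himg : g '' ball 0 1 = ball 0 1 := by
      apply Subset.antisymm
      · rintro _ ⟨x, hx, rfl⟩
        by_contra hc'
        have h5 : 1 ≤ ‖g x‖ := by simpa using hc'
        have := hinj (hfix _ h5)
        rw [this] at h5
        exact absurd hx (by simpa using h5)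
      · intro y hy
        obtain ⟨x, rfl⟩ := hsurj y
        refine ⟨x, ?_, rfl⟩
        by_contra hc'
        have h5 : 1 ≤ ‖x‖ := by simpa using hc'
        rw [hfix x h5] at hy
        exact hc' hy
    have hgd : ∀ x ∈ ball (0 : F) 1, HasFDerivWithinAt g (1 + t • D x) (ball 0 1) x :=
      fun x hx => ((hasFDerivAt_id x).add ((hd x hx).const_smul t)).hasFDerivWithinAt
    have := integral_image_eq_integral_abs_det_fderiv_smul μ measurableSet_ball hgd
      hinj.injOn (fun _ => (1 : ℝ))
    rw [himg] at this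
    simp only [integral_const, smul_eq_mul, mul_one, MeasurableSet.univ, measureReal_restrict_apply,
      univ_inter] at this
    rw [this]
    refine setIntegral_congr_fun measurableSet_ball fun x hx => ?_
    refine (abs_of_pos (hδp _ ?_)).symm
    rw [norm_smul, Real.norm_of_nonneg ht0]
    refine lt_of_le_of_lt ?_ (htK.trans_le (min_le_left _ _))
    gcongr
    exact hK0 x (ball_subset_closedBall hx)
  set n := Module.finrank ℝ F
  set s : Fin (n + 1) → ℝ := fun j => s0 / ((j : ℕ) + 1) with hs
  have hsinj : Function.Injective s := by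
    intro i j hij
    simp only [hs] at hij
    rw [div_eq_div_iff (by positivity) (by positivity)] at hij
    have := mul_left_cancel₀ hs0p.ne' hij
    have : (j : ℕ) = i := by exact_mod_cast add_right_cancel this
    exact Fin.ext this.symm
  obtain ⟨l, hl1, hl⟩ := det_interp s hsinj
  have hint : ∀ t : ℝ, IntegrableOn (fun x => (1 + t • D x).det) (ball (0 : F) 1) μ := by
    intro t
    refine IntegrableOn.mono_set ?_ ball_subset_closedBall
    refine ContinuousOn.integrableOn_compact (isCompact_closedBall _ _) ?_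
    exact ContinuousLinearMap.continuous_det.comp_continuousOn
      (continuousOn_const.add (hDc.const_smul t))
  have hzero : ∀ x ∈ ball (0 : F) 1, (1 + D x).det = 0 := by
    intro x hx
    have e1 : 1 + D x = fderiv ℝ r x := by simp [hD]
    rw [e1]
    by_contra hne
    have hxc := ball_subset_closedBall hx
    have hrd := ((hr x hxc).differentiableAt (by norm_num)).hasFDerivAt
    have h6 := hrd.norm_sq
    have h7 : HasFDerivAt (fun y => ‖r y‖ ^ 2) (0 : F →L[ℝ] ℝ) x := by
      refine (hasFDerivAt_const (1 : ℝ) x).congr_of_eventuallyEq ?_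
      filter_upwards [isOpen_ball.mem_nhds hx] with y hy
      simp [h1 y (ball_subset_closedBall hy)]
    have h8 := h6.unique h7
    obtain ⟨v, hv⟩ := (LinearMap.equivOfDetNeZero _ hne).surjective (r x)
    have hv' : fderiv ℝ r x v = r x := hv
    have h9 := congrArg (fun L : F →L[ℝ] ℝ => L v) h8
    simp [hv', h1 x hxc] at h9
  have hsum : ∫ x in ball (0 : F) 1, (1 + D x).det ∂μ = μ.real (ball 0 1) := by
    have hl' : (fun x => (1 + D x).det) = fun x => ∑ j, l j * (1 + s j • D x).det :=
      funext fun x => hl (D x)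
    rw [hl', integral_finsetSum _ (fun j _ => (hint (s j)).const_mul _)]
    have : ∀ j, ∫ x in ball (0 : F) 1, l j * (1 + s j • D x).det ∂μ = l j * μ.real (ball 0 1) := by
      intro j
      rw [integral_const_mul, hvol (s j) (by positivity)]
      exact div_le_self hs0p.le (by simp)
    simp_rw [this]
    rw [← Finset.sum_mul, hl1, one_mul]
  rw [setIntegral_congr_fun measurableSet_ball (g := fun _ => (0 : ℝ)) hzero] at hsum
  simp only [integral_zero] at hsum
  have hpos : 0 < μ.real (ball (0 : F) 1) :=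
    ENNReal.toReal_pos (measure_ball_pos μ _ one_pos).ne' measure_ball_lt_top.ne
  exact hpos.ne hsum

/-- A continuous map which is uniformly `1/4`-close to the identity has a zero. -/
theorem exists_zero_of_near_id (G : F → F) (hG : Continuous G) (h : ∀ x, ‖G x - x‖ ≤ 1 / 4) :
    ∃ x, G x = 0 := by
  by_contra hne
  push Not at hne
  obtain ⟨x0, -, hx0⟩ := (isCompact_closedBall (0 : F) 1).exists_isMinOn ⟨0, by simp⟩
    (hG.norm.continuousOn)
  have hm : 0 < ‖G x0‖ := norm_pos_iff.mpr (hne x0)
  set m := min (‖G x0‖ / 2) (1 / 8) with hmdef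
  have hmp : 0 < m := by positivity
  have huc := (isCompact_closedBall (0 : F) 2).uniformContinuousOn_of_continuous hG.continuousOn
  obtain ⟨ε, hε, hεu⟩ := Metric.uniformContinuousOn_iff.mp huc m hmp
  obtain ⟨G1, hG1, hG1d⟩ := hG.exists_contDiff_dist_le_of_forall_mem_ball_dist_le
    (lt_min hε one_pos)
  have hclose : ∀ x ∈ closedBall (0 : F) 1, ‖G1 x - G x‖ ≤ m := by
    intro x hx
    rw [← dist_eq_norm]
    refine hG1d x m fun y hy => (hεu y ?_ x ?_ (lt_of_lt_of_le hy (min_le_left _ _))).le
    · have h1 : dist y x < 1 := lt_of_lt_of_le hy (min_le_right _ _)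
      have h2 : dist x 0 ≤ 1 := hx
      have := dist_triangle y x 0
      exact mem_closedBall.mpr (by linarith)
    · exact closedBall_subset_closedBall (by norm_num) hx
  let χ : ContDiffBump (0 : F) := ⟨1 / 2, 3 / 4, by norm_num, by norm_num⟩
  set Φ : F → F := fun x => x + χ x • (G1 x - x) with hΦ
  have hΦc : ContDiff ℝ 1 Φ :=
    contDiff_id.add (χ.contDiff.smul ((hG1.of_le (by exact_mod_cast le_top)).sub contDiff_id))
  have hΦne : ∀ x ∈ closedBall (0 : F) 1, Φ x ≠ 0 := by
    intro x hx h0
    by_cases hx2 : ‖x‖ ≤ 1 / 2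
    · have : χ x = 1 := χ.one_of_mem_closedBall (by simpa [χ] using hx2)
      have h3 : G1 x = 0 := by simpa [hΦ, this] using h0
      have h4 := hclose x hx
      rw [h3, zero_sub, norm_neg] at h4
      have h5 : ‖G x0‖ ≤ ‖G x‖ := hx0 hx
      have : m ≤ ‖G x0‖ / 2 := min_le_left _ _
      linarith
    · have h3 : x = -(χ x • (G1 x - x)) := eq_neg_of_add_eq_zero_left h0
      have h4 : ‖G1 x - x‖ ≤ 1 / 8 + 1 / 4 := by
        have : G1 x - x = (G1 x - G x) + (G x - x) := by abel
        rw [this]
        exact (norm_add_le _ _).trans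
          (add_le_add ((hclose x hx).trans (min_le_right _ _)) (h x))
      have h5 : ‖x‖ ≤ 1 / 8 + 1 / 4 := by
        rw [h3, norm_neg, norm_smul, Real.norm_of_nonneg χ.nonneg]
        exact (mul_le_of_le_one_left (norm_nonneg _) χ.le_one).trans h4
      exact hx2 (by linarith)
  refine no_retraction (fun x => ‖Φ x‖⁻¹ • Φ x) (fun x hx => ?_) (fun x hx => ?_) (fun x hx => ?_)
  · exact ((hΦc.contDiffAt.norm ℝ (hΦne x hx)).inv (norm_ne_zero_iff.mpr (hΦne x hx))).smul
      hΦc.contDiffAt
  · rw [norm_smul, norm_inv, norm_norm, inv_mul_cancel₀ (norm_ne_zero_iff.mpr (hΦne x hx))]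
  · have : χ x = 0 := χ.zero_of_le_dist (by simp [χ, hx]; norm_num)
    simp [hΦ, this, hx]

/-- Brouwer's fixed point theorem for a closed ball centred at the origin. -/
theorem brouwer {R : ℝ} (hR : 0 < R) (f : F → F) (hf : ContinuousOn f (closedBall 0 R))
    (hm : MapsTo f (closedBall 0 R) (closedBall 0 R)) : ∃ x ∈ closedBall (0 : F) R, f x = x := by
  set p : F → F := fun x => (R / max R ‖x‖) • x with hp
  have hmx : ∀ x : F, 0 < max R ‖x‖ := fun x => lt_max_of_lt_left hR
  have hpc : Continuous p :=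
    (continuous_const.div (continuous_const.max continuous_norm) fun x => (hmx x).ne').smul
      continuous_id
  have hpm : ∀ x, p x ∈ closedBall (0 : F) R := by
    intro x
    rw [mem_closedBall, dist_zero_right, hp, norm_smul,
      Real.norm_of_nonneg (div_pos hR (hmx x)).le, div_mul_eq_mul_div, div_le_iff₀ (hmx x)]
    gcongr
    exact le_max_right _ _
  have hpid : ∀ x ∈ closedBall (0 : F) R, p x = x := by
    intro x hx
    have : ‖x‖ ≤ R := by simpa using hx
    simp [hp, max_eq_left this, div_self hR.ne']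
  have hc : Continuous fun x : F => f (p ((4 * R) • x)) :=
    hf.comp_continuous (hpc.comp (by fun_prop)) fun x => hpm _
  obtain ⟨x, hx⟩ := exists_zero_of_near_id (fun x => x - (4 * R)⁻¹ • f (p ((4 * R) • x)))
    (continuous_id.sub (hc.const_smul _)) (fun x => by
      have h1 : ‖f (p ((4 * R) • x))‖ ≤ R := by simpa using hm (hpm _)
      rw [sub_sub_cancel_left, norm_neg, norm_smul, Real.norm_of_nonneg (by positivity)]
      calc (4 * R)⁻¹ * ‖f (p ((4 * R) • x))‖ ≤ (4 * R)⁻¹ * R := by gcongr
        _ = 1 / 4 := by field_simp)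
  have h2 : (4 * R) • x = f (p ((4 * R) • x)) := by
    rw [sub_eq_zero] at hx
    conv_lhs => rw [hx]
    rw [smul_smul, mul_inv_cancel₀ (by positivity), one_smul]
  have h3 : (4 * R) • x ∈ closedBall (0 : F) R := h2 ▸ hm (hpm _)
  refine ⟨_, h3, ?_⟩
  rw [hpid _ h3] at h2
  exact h2.symm

end Pool.Agent.Shared.Brouwer
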